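import Pool.Agent.H2.TM.IntPoly

/-!
# Thue-Morse along polynomials: each symbol occurs at least `C N^e` times

`thueMorse m` is the parity of the sum of the binary digits of `m`.  For every polynomial `P`
with rational coefficients of degree `h ≥ 2` which takes natural number values at all natural
numbers, each symbol `c < 2` occurs at least `C N^e` times among `t(P(0)), ..., t(P(N-1))`,
where `e = 2/(h+1)` if `4 ∤ h` and `e = 3/(2h+1)` if `4 ∣ h`.
-/

namespace Pool.Agent.Results.MP_b6022c_nt.ImprovedExponent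

open Polynomial

/-- the Thue-Morse sequence: parity of the binary digit sum -/
def thueMorse (m : ℕ) : ℕ := (Nat.digits 2 m).sum % 2

/-- the exponent -/
noncomputable def exponent (h : ℕ) : ℝ := if 4 ∣ h then 3 / (2 * h + 1) else 2 / (h + 1)

theorem result (P : ℚ[X]) (hP : ∀ n : ℕ, ∃ m : ℕ, P.eval (n : ℚ) = m) (hdeg : 2 ≤ P.natDegree)
    (c : ℕ) (hc : c < 2) :
    ∃ C > (0 : ℝ), ∃ N0 : ℕ, ∀ N ≥ N0, C * (N : ℝ) ^ (exponent P.natDegree) ≤
      ({n : ℕ | n < N ∧ ∃ m : ℕ, P.eval (n : ℚ) = m ∧ thueMorse m = c}.ncard : ℝ) := by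
  classical
  set h := P.natDegree with hh
  -- a common denominator
  obtain ⟨D, hD, a, ha⟩ : ∃ D : ℕ, 0 < D ∧ ∃ a : ℕ → ℤ, ∀ i ≤ h, (a i : ℚ) = P.coeff i * (D : ℚ) ^ i := by
    refine ⟨∏ i ∈ Finset.range (h + 1), (P.coeff i).den, Finset.prod_pos fun i _ => (P.coeff i).pos, ?_⟩
    set D := ∏ i ∈ Finset.range (h + 1), (P.coeff i).den with hDdef
    have key : ∀ i ≤ h, ∃ z : ℤ, (z : ℚ) = P.coeff i * (D : ℚ) ^ i := by
      intro i hi
      rcases Nat.eq_zero_or_pos i with rfl | hpos
      · obtain ⟨m, hm⟩ := hP 0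
        refine ⟨m, ?_⟩
        rw [pow_zero, mul_one, coeff_zero_eq_eval_zero]
        have : ((0 : ℕ) : ℚ) = 0 := by norm_num
        rw [← this, hm]; push_cast; rfl
      · obtain ⟨r, hr⟩ : (P.coeff i).den ∣ D := Finset.dvd_prod_of_mem _ (by simp; omega)
        refine ⟨(P.coeff i).num * r * D ^ (i - 1), ?_⟩
        have h1 : (D : ℚ) ^ i = D * D ^ (i - 1) := by
          rw [← pow_succ']; congr 1; omega
        have h2 : P.coeff i * D = (P.coeff i).num * r := by
          rw [hr]; push_cast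
          rw [← mul_assoc, Rat.mul_den_eq_num]
        rw [h1, ← mul_assoc, h2]; push_cast; ring
    choose! a ha using key
    exact ⟨a, ha⟩
  have hF : ∀ u : ℕ, ((∑ l ∈ Finset.range (h + 1), a l * (u : ℤ) ^ l : ℤ) : ℚ) = P.eval ((D * u : ℕ) : ℚ) := by
    intro u
    rw [eval_eq_sum_range]
    push_cast
    apply Finset.sum_congr rfl
    intro l hl
    rw [ha l (by simpa [Nat.lt_succ_iff] using hl)]
    ring
  have hDq : (D : ℚ) ≠ 0 := by exact_mod_cast hD.ne'
  -- positivity of the leading coefficient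
  have hne : a h ≠ 0 := by
    intro h0
    have h1 := ha h le_rfl
    rw [h0] at h1
    have h2 : P.coeff h ≠ 0 := by
      rw [hh]
      have : P ≠ 0 := by
        intro hz; rw [hz] at hh; simp at hh; omega
      exact leadingCoeff_ne_zero.2 this
    exact mul_ne_zero h2 (pow_ne_zero _ hDq) (by rw [← h1]; norm_num)
  have hpos : 0 < a h := by
    by_contra hcon
    have hneg : 0 < (fun i => - a i) h := by
      change 0 < - a h
      omega
    set v : ℕ := ((∑ i ∈ Finset.range (h + 1), |(fun i => - a i) i|) * 2 ^ h).toNat + 1 with hv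
    have h1 := H2TM.pc_sign (fun i => - a i) h 0 (by omega) hneg 1 (v : ℤ) (Or.inl rfl)
      (by
        rw [hv]; push_cast
        have := Int.self_le_toNat ((∑ i ∈ Finset.range (h + 1), |(fun i => - a i) i|) * 2 ^ h)
        linarith)
    have h2 : H2TM.pc (fun i => - a i) h 0 (1 * (v : ℤ)) = - ∑ l ∈ Finset.range (h + 1), a l * (v : ℤ) ^ l := by
      unfold H2TM.pc
      rw [← Finset.sum_neg_distrib]
      apply Finset.sum_congr rfl
      intro i _
      simp
    rw [h2] at h1
    obtain ⟨m, hm⟩ := hP (D * v)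
    have h3 := hF v
    rw [hm] at h3
    have h4 : (∑ l ∈ Finset.range (h + 1), a l * (v : ℤ) ^ l) = (m : ℤ) := by exact_mod_cast h3
    rw [h4] at h1
    simp at h1
    omega
  obtain ⟨c', hc', N0, hN0⟩ := H2TM.intPoly a h c hdeg hpos hc
  have hDr : (0 : ℝ) < D := by exact_mod_cast hD
  have hexp : (0 : ℝ) ≤ exponent h := by unfold exponent; split_ifs <;> positivity
  have hexp' : exponent h = H2TM.expo h := rfl
  refine ⟨c' / (2 * D) ^ (exponent h), div_pos hc' (Real.rpow_pos_of_pos (by positivity) _),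
    D * N0 + 2 * D, ?_⟩
  intro N hN
  have h1 : N0 ≤ N / D := by
    rw [Nat.le_div_iff_mul_le hD, mul_comm]; omega
  have h2 := hN0 (N / D) h1
  have h3 : ((Finset.range (N / D)).filter (H2TM.Hit a h c)).card
      ≤ {n : ℕ | n < N ∧ ∃ m : ℕ, P.eval (n : ℚ) = m ∧ thueMorse m = c}.ncard := by
    have hfin : {n : ℕ | n < N ∧ ∃ m : ℕ, P.eval (n : ℚ) = m ∧ thueMorse m = c}.Finite :=
      (Set.finite_lt_nat N).subset fun n hn => hn.1
    rw [← Set.ncard_coe_finset]
    refine Set.ncard_le_ncard_of_injOn (fun u => D * u) ?_ ?_ hfin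
    · intro u hu
      have hu' := Finset.mem_filter.1 (Finset.mem_coe.1 hu)
      have hu1 := Finset.mem_range.1 hu'.1
      refine ⟨?_, ?_⟩
      · have h4 : u * D < N := by
          have h5 : (u + 1) * D ≤ N := by
            rw [← Nat.le_div_iff_mul_le hD]; omega
          nlinarith
        change D * u < N
        rw [mul_comm]; exact h4
      · obtain ⟨h6, h7⟩ := hu'.2
        refine ⟨(∑ l ∈ Finset.range (h + 1), a l * (u : ℤ) ^ l).toNat, ?_, h7⟩
        rw [← hF u]
        have : ((∑ l ∈ Finset.range (h + 1), a l * (u : ℤ) ^ l).toNat : ℤ)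
            = ∑ l ∈ Finset.range (h + 1), a l * (u : ℤ) ^ l := Int.toNat_of_nonneg h6
        exact_mod_cast this.symm
    · intro u _ v _ huv
      exact Nat.eq_of_mul_eq_mul_left hD huv
  have h4 : (N : ℝ) / (2 * D) ≤ ((N / D : ℕ) : ℝ) := by
    rw [div_le_iff₀ (by positivity)]
    have h5 : N < (N / D + 1) * D := by
      rw [mul_comm]; exact Nat.lt_mul_div_succ N hD
    have h6 : (N : ℝ) < ((N / D : ℕ) + 1) * D := by exact_mod_cast h5
    have h7 : (2 : ℝ) * D ≤ N := by exact_mod_cast (by omega : 2 * D ≤ N)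
    nlinarith
  have h5 : ((N : ℝ) / (2 * D)) ^ (exponent h) ≤ ((N / D : ℕ) : ℝ) ^ (exponent h) :=
    Real.rpow_le_rpow (by positivity) h4 hexp
  rw [Real.div_rpow (by positivity) (by positivity)] at h5
  calc c' / (2 * D) ^ (exponent h) * (N : ℝ) ^ (exponent h)
      = c' * ((N : ℝ) ^ (exponent h) / (2 * D) ^ (exponent h)) := by ring
    _ ≤ c' * ((N / D : ℕ) : ℝ) ^ (exponent h) := mul_le_mul_of_nonneg_left h5 hc'.le
    _ ≤ ((Finset.range (N / D)).filter (H2TM.Hit a h c)).card := by rw [hexp']; exact h2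
    _ ≤ _ := by exact_mod_cast h3

end Pool.Agent.Results.MP_b6022c_nt.ImprovedExponent
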